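import Pool.Agent.helper82.T6.SpecW

set_option autoImplicit false

/-!
# T6, block W: WSM (sums over pairs and frequencies)
-/

namespace Pool.Agent.T6

open Finset Pool.Agent.helper3.FT Pool.Agent.T5

/-- geometric sums -/
theorem WSM_geo (a X : ℝ) (ha : 1 / 5 ≤ a) (U : ℕ) (hU : (2 : ℝ) ^ U ≤ X) :
    ∑ u ∈ range (U + 1), (2 : ℝ) ^ (a * (u : ℝ)) ≤ 8 * X ^ a := by
  have hw : (8 / 7 : ℝ) ≤ (2 : ℝ) ^ a := by
    have h1 : (2 : ℝ) ^ (1 / 5 : ℝ) ≤ (2 : ℝ) ^ a :=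
      Real.rpow_le_rpow_of_exponent_le (by norm_num) ha
    have h2 : (8 / 7 : ℝ) ≤ (2 : ℝ) ^ (1 / 5 : ℝ) := by
      have h3 : ((8 / 7 : ℝ) ^ (5 : ℕ)) ^ (1 / 5 : ℝ) ≤ 2 ^ (1 / 5 : ℝ) :=
        Real.rpow_le_rpow (by norm_num) (by norm_num) (by norm_num)
      have h4 : ((8 / 7 : ℝ) ^ (5 : ℕ)) ^ (1 / 5 : ℝ) = 8 / 7 := by
        rw [← Real.rpow_natCast, ← Real.rpow_mul (by norm_num)]
        norm_num
      rwa [h4] at h3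
    exact h2.trans h1
  have h5 : ∀ n : ℕ, ∑ u ∈ range (n + 1), ((2 : ℝ) ^ a) ^ u ≤ 8 * ((2 : ℝ) ^ a) ^ n := by
    intro n
    induction n with
    | zero => norm_num
    | succ n ih =>
      rw [Finset.sum_range_succ]
      have h6 : 0 ≤ ((2 : ℝ) ^ a) ^ n := by positivity
      rw [pow_succ]
      nlinarith
  have h7 : ∑ u ∈ range (U + 1), (2 : ℝ) ^ (a * (u : ℝ)) =
      ∑ u ∈ range (U + 1), ((2 : ℝ) ^ a) ^ u := by
    refine Finset.sum_congr rfl fun u _ => ?_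
    exact Real.rpow_mul_natCast (by norm_num) a u
  rw [h7]
  refine (h5 U).trans ?_
  have h8 : ((2 : ℝ) ^ a) ^ U = ((2 : ℝ) ^ U) ^ a := by
    rw [← Real.rpow_mul_natCast (by norm_num), mul_comm, Real.rpow_natCast_mul (by norm_num)]
  rw [h8]
  refine mul_le_mul_of_nonneg_left ?_ (by norm_num)
  exact Real.rpow_le_rpow (by positivity) hU (by linarith)

open Classical in
/-- the sum over `(p, h)` as a sum over `(e, u, (δ, r))` -/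
theorem WSM_comb (hWDL : WDL_stmt) (y₀ N K y T : ℕ) (g : ℕ × ℕ → ℝ) (hg : ∀ x, 0 ≤ g x) :
    ∑ p ∈ pairs N K y, ∑ h ∈ Ico 1 T,
      g (dl y₀ h (p.1 * p.2), rt (dl y₀ h (p.1 * p.2)) p.1 p.2) ≤
    ∑ e ∈ Ico 1 T, ∑ u ∈ range (Nat.log 2 (T / e) + 1), ∑ x ∈ PR y₀ u, g x *
      (((pairs N K (Nat.lcm y (rr y₀ e))).filter
        (fun p => Nat.Coprime x.1 (p.1 * p.2) ∧ (x.1 : ℤ) ∣ (x.2 : ℤ) * p.2 - p.1)).card : ℝ) := by
  obtain ⟨hD1, hD2, hD3⟩ := hWDL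
  have key : ∀ p ∈ pairs N K y, ∑ h ∈ Ico 1 T,
      g (dl y₀ h (p.1 * p.2), rt (dl y₀ h (p.1 * p.2)) p.1 p.2) ≤
      ∑ e ∈ Ico 1 T, ∑ u ∈ range (Nat.log 2 (T / e) + 1), ∑ x ∈ PR y₀ u,
        (if rr y₀ e ∣ p.1 * p.2 ∧ Nat.Coprime x.1 (p.1 * p.2) ∧
          (x.1 : ℤ) ∣ (x.2 : ℤ) * p.2 - p.1 then g x else 0) := by
    intro p hp
    let S : Finset (Σ _ : ℕ, Σ _ : ℕ, ℕ × ℕ) := (Ico 1 T).sigma fun e =>
      (range (Nat.log 2 (T / e) + 1)).sigma fun u => PR y₀ u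
    let F : (Σ _ : ℕ, Σ _ : ℕ, ℕ × ℕ) → ℝ := fun z =>
      if rr y₀ z.1 ∣ p.1 * p.2 ∧ Nat.Coprime z.2.2.1 (p.1 * p.2) ∧
          (z.2.2.1 : ℤ) ∣ (z.2.2.2 : ℤ) * p.2 - p.1 then g z.2.2 else 0
    let φ : ℕ → (Σ _ : ℕ, Σ _ : ℕ, ℕ × ℕ) := fun h =>
      ⟨h / dl y₀ h (p.1 * p.2), Nat.log 2 (dl y₀ h (p.1 * p.2)),
        (dl y₀ h (p.1 * p.2), rt (dl y₀ h (p.1 * p.2)) p.1 p.2)⟩
    have hS : ∑ z ∈ S, F z = ∑ e ∈ Ico 1 T, ∑ u ∈ range (Nat.log 2 (T / e) + 1), ∑ x ∈ PR y₀ u,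
        (if rr y₀ e ∣ p.1 * p.2 ∧ Nat.Coprime x.1 (p.1 * p.2) ∧
          (x.1 : ℤ) ∣ (x.2 : ℤ) * p.2 - p.1 then g x else 0) := by
      simp only [S, F]
      rw [Finset.sum_sigma]
      refine Finset.sum_congr rfl fun e _ => ?_
      rw [Finset.sum_sigma]
    rw [← hS]
    have hmem : ∀ h ∈ Ico 1 T, 1 ≤ dl y₀ h (p.1 * p.2) ∧ dl y₀ h (p.1 * p.2) ∣ h ∧
        Nat.Coprime (dl y₀ h (p.1 * p.2)) (p.1 * p.2) ∧ Rgh y₀ (dl y₀ h (p.1 * p.2)) ∧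
        rr y₀ (h / dl y₀ h (p.1 * p.2)) ∣ p.1 * p.2 := by
      intro h hh
      rw [Finset.mem_Ico] at hh
      exact hD1 y₀ h (p.1 * p.2) hh.1
    have hrt : ∀ h ∈ Ico 1 T,
        ((dl y₀ h (p.1 * p.2) : ℕ) : ℤ) ∣ ((rt (dl y₀ h (p.1 * p.2)) p.1 p.2 : ℕ) : ℤ) * p.2 - p.1 ∧
        rt (dl y₀ h (p.1 * p.2)) p.1 p.2 < dl y₀ h (p.1 * p.2) ∧
        Nat.Coprime (rt (dl y₀ h (p.1 * p.2)) p.1 p.2) (dl y₀ h (p.1 * p.2)) := by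
      intro h hh
      obtain ⟨a1, _, a3, _, _⟩ := hmem h hh
      have a6 := hD2 (dl y₀ h (p.1 * p.2)) p.1 p.2 a1 (Nat.Coprime.coprime_mul_left_right a3)
      exact ⟨a6.1, a6.2.1, a6.2.2 (Nat.Coprime.coprime_mul_right_right a3)⟩
    have hinj : Set.InjOn φ (Ico 1 T : Finset ℕ) := by
      intro h hh h' hh' heq
      have e1 : h / dl y₀ h (p.1 * p.2) = h' / dl y₀ h' (p.1 * p.2) :=
        congrArg (fun z : (Σ _ : ℕ, Σ _ : ℕ, ℕ × ℕ) => z.1) heq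
      have e2 : dl y₀ h (p.1 * p.2) = dl y₀ h' (p.1 * p.2) :=
        congrArg (fun z : (Σ _ : ℕ, Σ _ : ℕ, ℕ × ℕ) => z.2.2.1) heq
      have a := (hmem h hh).2.1
      have a' := (hmem h' hh').2.1
      rw [← Nat.div_mul_cancel a, ← Nat.div_mul_cancel a', e1, e2]
    have hF : ∀ h ∈ Ico 1 T, g (dl y₀ h (p.1 * p.2), rt (dl y₀ h (p.1 * p.2)) p.1 p.2) =
        F (φ h) := by
      intro h hh
      obtain ⟨_, _, a3, _, a5⟩ := hmem h hh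
      obtain ⟨b1, _, _⟩ := hrt h hh
      simp only [F, φ]
      rw [if_pos ⟨a5, a3, b1⟩]
    rw [Finset.sum_congr rfl hF, ← Finset.sum_image (f := F) (g := φ) hinj]
    refine Finset.sum_le_sum_of_subset_of_nonneg ?_ ?_
    · intro z hz
      rw [Finset.mem_image] at hz
      obtain ⟨h, hh, rfl⟩ := hz
      obtain ⟨a1, a2, a3, a4, a5⟩ := hmem h hh
      obtain ⟨b1, b2, b3⟩ := hrt h hh
      rw [Finset.mem_Ico] at hh
      have c1 : 1 ≤ h / dl y₀ h (p.1 * p.2) :=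
        Nat.div_pos (Nat.le_of_dvd (by omega) a2) a1
      have c2 : h / dl y₀ h (p.1 * p.2) ≤ h := Nat.div_le_self _ _
      have c3 : dl y₀ h (p.1 * p.2) ≤ T / (h / dl y₀ h (p.1 * p.2)) := by
        rw [Nat.le_div_iff_mul_le c1, Nat.mul_div_cancel' a2]
        omega
      simp only [S, φ, Finset.mem_sigma, Finset.mem_Ico, Finset.mem_range]
      refine ⟨⟨c1, by omega⟩, Nat.lt_succ_of_le (Nat.log_mono_right c3), ?_⟩
      unfold PR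
      rw [Finset.mem_filter, Finset.mem_product, Finset.mem_Ico, Finset.mem_range]
      have d1 : 2 ^ Nat.log 2 (dl y₀ h (p.1 * p.2)) ≤ dl y₀ h (p.1 * p.2) :=
        Nat.pow_log_le_self 2 (by omega)
      have d2 : dl y₀ h (p.1 * p.2) < 2 ^ (Nat.log 2 (dl y₀ h (p.1 * p.2)) + 1) :=
        Nat.lt_pow_succ_log_self (by norm_num) _
      exact ⟨⟨⟨d1, d2⟩, lt_trans b2 d2⟩, b2, b3, a4⟩
    · intro z _ _
      simp only [F]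
      split_ifs
      · exact hg _
      · exact le_rfl
  refine (Finset.sum_le_sum key).trans ?_
  rw [Finset.sum_comm]
  refine Finset.sum_le_sum fun e he => ?_
  rw [Finset.sum_comm]
  refine Finset.sum_le_sum fun u _ => ?_
  rw [Finset.sum_comm]
  refine Finset.sum_le_sum fun x _ => ?_
  rw [← Finset.sum_filter, Finset.sum_const, nsmul_eq_mul, mul_comm]
  refine mul_le_mul_of_nonneg_left ?_ (hg x)
  refine Nat.cast_le.mpr (Finset.card_le_card ?_)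
  intro p hp
  rw [Finset.mem_filter] at hp ⊢
  obtain ⟨h1, h2, h3, h4⟩ := hp
  refine ⟨?_, h3, h4⟩
  unfold pairs at h1 ⊢
  rw [Finset.mem_filter] at h1 ⊢
  obtain ⟨k1, k2, k3, k4, k5⟩ := h1
  exact ⟨k1, k2, k3, k4, Nat.lcm_dvd k5 h2⟩

theorem WSM_lamb (b : ℝ) (hb : 1 ≤ b) (d r : ℕ) : 0 ≤ lamb b d r := by
  unfold lamb
  refine Real.sInf_nonneg ?_
  rintro x ⟨v, _, _, rfl⟩
  unfold nrm
  refine le_max_of_le_left (le_max_of_le_left ?_)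
  positivity

theorem WSM_sqf (y z : ℕ) (hy : Squarefree y) (hz : Squarefree z) : Squarefree (Nat.lcm y z) := by
  have hy0 : y ≠ 0 := hy.ne_zero
  have hz0 : z ≠ 0 := hz.ne_zero
  rw [Nat.squarefree_iff_factorization_le_one (Nat.lcm_ne_zero hy0 hz0)]
  intro p
  rw [Nat.factorization_lcm hy0 hz0, Finsupp.sup_apply]
  exact sup_le ((Nat.squarefree_iff_factorization_le_one hy0).1 hy p)
    ((Nat.squarefree_iff_factorization_le_one hz0).1 hz p)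

theorem WSM_pow (u : ℕ) (l : ℝ) (hl : 0 ≤ l) : (1 / l) ^ (3 / 2 : ℝ) =
    (2 : ℝ) ^ (-(3 / 4 : ℝ) * (u : ℝ)) * (√(2 ^ u) / l) ^ (3 / 2 : ℝ) := by
  have e : √((2 : ℝ) ^ u) = (2 : ℝ) ^ ((u : ℝ) * (1 / 2 : ℝ)) := by
    rw [Real.sqrt_eq_rpow, ← Real.rpow_natCast, ← Real.rpow_mul (by norm_num)]
  rw [div_eq_mul_one_div (√((2 : ℝ) ^ u)) l, Real.mul_rpow (Real.sqrt_nonneg _) (by positivity), e,
    ← Real.rpow_mul (by norm_num), ← mul_assoc, ← Real.rpow_add (by norm_num)]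
  have e2 : -(3 / 4 : ℝ) * (u : ℝ) + (u : ℝ) * (1 / 2) * (3 / 2) = 0 := by ring
  rw [e2, Real.rpow_zero, one_mul]

open Classical in
/-- the sum over the pairs `(δ, r)` of one level -/
theorem WSM_lev (hWMU : WMU_stmt) (y₀ B : ℕ) (C₀ τ b : ℝ) (hb : 1 ≤ b) (u N K Y : ℕ)
    (hN : 1 ≤ N) (hK : 1 ≤ K) (hY : Squarefree Y)
    (hH : ∑ p ∈ PR y₀ u, (√(2 ^ u) / lamb b p.1 p.2) ^ (3 / 2 : ℝ) ≤
      C₀ * (1 + b ^ B * (2 : ℝ) ^ (-(τ * u))) * 4 ^ u) :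
    ∑ x ∈ PR y₀ u, (1 / lamb b x.1 x.2) ^ (3 / 2 : ℝ) *
      (((pairs N K Y).filter
        (fun p => Nat.Coprime x.1 (p.1 * p.2) ∧ (x.1 : ℤ) ∣ (x.2 : ℤ) * p.2 - p.1)).card : ℝ) ≤
    2 ^ Y.primeFactors.card * C₀ * ((2 : ℝ) ^ ((5 / 4 : ℝ) * (u : ℝ)) +
      2 * N * K / Y * (2 : ℝ) ^ ((1 / 4 : ℝ) * (u : ℝ)) +
      b ^ B * (2 : ℝ) ^ ((5 / 4 - τ : ℝ) * (u : ℝ)) +
      b ^ B * (2 * N * K / Y) * (2 : ℝ) ^ ((1 / 4 - τ : ℝ) * (u : ℝ))) := by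
  have hY0 : 0 < Y := Nat.pos_of_ne_zero hY.ne_zero
  have hYr : (0 : ℝ) < Y := by exact_mod_cast hY0
  have h2u : (0 : ℝ) < 2 ^ u := by positivity
  have hM0 : (0 : ℝ) ≤ 2 ^ Y.primeFactors.card * (1 + 2 * N * K / (2 ^ u * Y)) := by positivity
  have h1 : ∀ x ∈ PR y₀ u, (1 / lamb b x.1 x.2) ^ (3 / 2 : ℝ) *
      (((pairs N K Y).filter
        (fun p => Nat.Coprime x.1 (p.1 * p.2) ∧ (x.1 : ℤ) ∣ (x.2 : ℤ) * p.2 - p.1)).card : ℝ) ≤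
      (2 ^ Y.primeFactors.card * (1 + 2 * N * K / (2 ^ u * Y))) *
        ((2 : ℝ) ^ (-(3 / 4 : ℝ) * (u : ℝ)) * (√(2 ^ u) / lamb b x.1 x.2) ^ (3 / 2 : ℝ)) := by
    intro x hx
    rw [← WSM_pow u _ (WSM_lamb b hb x.1 x.2), mul_comm]
    have hg : 0 ≤ (1 / lamb b x.1 x.2) ^ (3 / 2 : ℝ) :=
      Real.rpow_nonneg (div_nonneg zero_le_one (WSM_lamb b hb x.1 x.2)) _
    refine mul_le_mul_of_nonneg_right ?_ hg
    unfold PR at hx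
    rw [Finset.mem_filter, Finset.mem_product, Finset.mem_Ico] at hx
    obtain ⟨⟨⟨hx1, _⟩, _⟩, _⟩ := hx
    have hx0 : 1 ≤ x.1 := le_trans Nat.one_le_two_pow hx1
    by_cases hc : Nat.Coprime x.1 Y
    · refine (hWMU N K Y x.1 x.2 hN hK hY hx0 hc).trans ?_
      refine mul_le_mul_of_nonneg_left ?_ (by positivity)
      have h3 : ((2 : ℝ) ^ u) * Y ≤ (x.1 : ℝ) * Y := by
        refine mul_le_mul_of_nonneg_right ?_ hYr.le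
        exact_mod_cast hx1
      have h4 : (2 * N * K : ℝ) / ((x.1 : ℝ) * Y) ≤ 2 * N * K / (2 ^ u * Y) :=
        div_le_div_of_nonneg_left (by positivity) (by positivity) h3
      linarith
    · have h5 : ((pairs N K Y).filter
        (fun p => Nat.Coprime x.1 (p.1 * p.2) ∧ (x.1 : ℤ) ∣ (x.2 : ℤ) * p.2 - p.1)) = ∅ := by
        rw [Finset.filter_eq_empty_iff]
        rintro p hp ⟨h6, _⟩
        unfold pairs at hp
        rw [Finset.mem_filter] at hp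
        exact hc (Nat.Coprime.coprime_dvd_right hp.2.2.2.2 h6)
      rw [h5, Finset.card_empty, Nat.cast_zero]
      exact hM0
  refine (Finset.sum_le_sum h1).trans ?_
  rw [← Finset.mul_sum, ← Finset.mul_sum]
  have h2 : (2 ^ Y.primeFactors.card * (1 + 2 * N * K / (2 ^ u * Y))) *
      ((2 : ℝ) ^ (-(3 / 4 : ℝ) * (u : ℝ)) *
        ∑ x ∈ PR y₀ u, (√(2 ^ u) / lamb b x.1 x.2) ^ (3 / 2 : ℝ)) ≤
      (2 ^ Y.primeFactors.card * (1 + 2 * N * K / (2 ^ u * Y))) *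
      ((2 : ℝ) ^ (-(3 / 4 : ℝ) * (u : ℝ)) * (C₀ * (1 + b ^ B * (2 : ℝ) ^ (-(τ * u))) * 4 ^ u)) :=
    mul_le_mul_of_nonneg_left (mul_le_mul_of_nonneg_left hH (by positivity)) hM0
  refine h2.trans (le_of_eq ?_)
  have e4 : (4 : ℝ) ^ u = (2 : ℝ) ^ (2 * (u : ℝ)) := by
    rw [Real.rpow_mul (by norm_num), Real.rpow_natCast]
    norm_num
  have e2 : (2 : ℝ) ^ u = (2 : ℝ) ^ (u : ℝ) := by rw [Real.rpow_natCast]
  have a1 : (2 : ℝ) ^ (-(3 / 4 : ℝ) * (u : ℝ)) * (2 : ℝ) ^ (2 * (u : ℝ)) =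
      (2 : ℝ) ^ ((5 / 4 : ℝ) * (u : ℝ)) := by
    rw [← Real.rpow_add (by norm_num)]
    congr 1
    ring
  have a2 : (2 : ℝ) ^ ((5 / 4 : ℝ) * (u : ℝ)) = (2 : ℝ) ^ ((1 / 4 : ℝ) * (u : ℝ)) * 2 ^ u := by
    rw [e2, ← Real.rpow_add (by norm_num)]
    congr 1
    ring
  have a3 : (2 : ℝ) ^ (-(τ * (u : ℝ))) * (2 : ℝ) ^ ((5 / 4 : ℝ) * (u : ℝ)) =
      (2 : ℝ) ^ ((5 / 4 - τ : ℝ) * (u : ℝ)) := by
    rw [← Real.rpow_add (by norm_num)]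
    congr 1
    ring
  have a4 : (2 : ℝ) ^ ((5 / 4 - τ : ℝ) * (u : ℝ)) =
      (2 : ℝ) ^ ((1 / 4 - τ : ℝ) * (u : ℝ)) * 2 ^ u := by
    rw [e2, ← Real.rpow_add (by norm_num)]
    congr 1
    ring
  have b1 : (1 + 2 * N * K / (2 ^ u * Y) : ℝ) * (2 : ℝ) ^ ((5 / 4 : ℝ) * (u : ℝ)) =
      (2 : ℝ) ^ ((5 / 4 : ℝ) * (u : ℝ)) + 2 * N * K / Y * (2 : ℝ) ^ ((1 / 4 : ℝ) * (u : ℝ)) := by
    rw [add_mul, one_mul]
    congr 1
    rw [a2]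
    field_simp
  have b2 : (1 + 2 * N * K / (2 ^ u * Y) : ℝ) * (2 : ℝ) ^ ((5 / 4 - τ : ℝ) * (u : ℝ)) =
      (2 : ℝ) ^ ((5 / 4 - τ : ℝ) * (u : ℝ)) +
        2 * N * K / Y * (2 : ℝ) ^ ((1 / 4 - τ : ℝ) * (u : ℝ)) := by
    rw [add_mul, one_mul]
    congr 1
    rw [a4]
    field_simp
  calc (2 ^ Y.primeFactors.card * (1 + 2 * N * K / (2 ^ u * Y))) *
      ((2 : ℝ) ^ (-(3 / 4 : ℝ) * (u : ℝ)) * (C₀ * (1 + b ^ B * (2 : ℝ) ^ (-(τ * u))) * 4 ^ u))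
      = 2 ^ Y.primeFactors.card * C₀ *
        ((1 + 2 * N * K / (2 ^ u * Y) : ℝ) *
          ((2 : ℝ) ^ (-(3 / 4 : ℝ) * (u : ℝ)) * (2 : ℝ) ^ (2 * (u : ℝ))) +
        b ^ B * ((1 + 2 * N * K / (2 ^ u * Y) : ℝ) * ((2 : ℝ) ^ (-(τ * (u : ℝ))) *
          ((2 : ℝ) ^ (-(3 / 4 : ℝ) * (u : ℝ)) * (2 : ℝ) ^ (2 * (u : ℝ)))))) := by
        rw [e4]
        ring
    _ = _ := by
        rw [a1, a3, b1, b2]
        ring

theorem WSM_te (T e : ℕ) (hT : 1 ≤ T) (he : 1 ≤ e) (c c' : ℝ) (hc : c' ≤ c) :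
    ((T : ℝ) / e) ^ c ≤ (T : ℝ) ^ c * (e : ℝ) ^ (-c') := by
  have hT' : (0 : ℝ) ≤ T := by positivity
  have he' : (1 : ℝ) ≤ e := by exact_mod_cast he
  rw [Real.div_rpow hT' (by linarith), div_eq_mul_inv, ← Real.rpow_neg (by linarith)]
  refine mul_le_mul_of_nonneg_left ?_ (Real.rpow_nonneg hT' _)
  exact Real.rpow_le_rpow_of_exponent_le he' (by linarith)

theorem WSM (hWDL : WDL_stmt) (hWMU : WMU_stmt) (hWEP : WEP_stmt) : WSM_stmt := by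
  classical
  intro y₀ B C₀ τ hy₀ hC₀ hτ hτ' hH
  obtain ⟨CE, hCE1, hCE⟩ := hWEP y₀
  refine ⟨16 * C₀ * CE, ?_, ?_⟩
  · nlinarith
  intro b N K y T hb hN hK hT hy
  have hT0 : (0 : ℝ) < T := by exact_mod_cast hT
  have hNr : (1 : ℝ) ≤ N := by exact_mod_cast hN
  have hKr : (1 : ℝ) ≤ K := by exact_mod_cast hK
  have hy0 : (0 : ℝ) < y := by exact_mod_cast Nat.pos_of_ne_zero hy.ne_zero
  have hbB : 0 ≤ b ^ B := by positivity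
  have h1 := WSM_comb hWDL y₀ N K y T (fun x => (1 / lamb b x.1 x.2) ^ (3 / 2 : ℝ))
    (fun x => Real.rpow_nonneg (div_nonneg zero_le_one (WSM_lamb b hb x.1 x.2)) _)
  refine h1.trans ?_
  -- one `e`
  have h2 : ∀ e ∈ Ico 1 T, ∑ u ∈ range (Nat.log 2 (T / e) + 1), ∑ x ∈ PR y₀ u,
      (1 / lamb b x.1 x.2) ^ (3 / 2 : ℝ) *
      (((pairs N K (Nat.lcm y (rr y₀ e))).filter
        (fun p => Nat.Coprime x.1 (p.1 * p.2) ∧ (x.1 : ℤ) ∣ (x.2 : ℤ) * p.2 - p.1)).card : ℝ) ≤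
      8 * C₀ * (1 + b ^ B * (T : ℝ) ^ (-τ)) *
        ((T : ℝ) ^ (5 / 4 : ℝ) * ((2 : ℝ) ^ (Nat.lcm y (rr y₀ e)).primeFactors.card *
          (e : ℝ) ^ (-(6 / 5 : ℝ))) +
        2 * N * K * (T : ℝ) ^ (1 / 4 : ℝ) * ((2 : ℝ) ^ (Nat.lcm y (rr y₀ e)).primeFactors.card /
          (Nat.lcm y (rr y₀ e)) * (e : ℝ) ^ (-(1 / 5 : ℝ)))) := by
    intro e he
    rw [Finset.mem_Ico] at he
    obtain ⟨he1, he2⟩ := he
    have hrr := hWDL.2.2 y₀ e he1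
    have hsq := WSM_sqf y (rr y₀ e) hy hrr.1
    set Y := Nat.lcm y (rr y₀ e) with hYdef
    have hY0 : (0 : ℝ) < Y := by exact_mod_cast Nat.pos_of_ne_zero hsq.ne_zero
    have h3 := Finset.sum_le_sum (s := range (Nat.log 2 (T / e) + 1))
      (fun u _ => WSM_lev hWMU y₀ B C₀ τ b hb u N K Y hN hK hsq (hH b hb u))
    refine h3.trans ?_
    have hTe : 1 ≤ T / e := Nat.div_pos he2.le he1
    have he0 : (0 : ℝ) < e := by exact_mod_cast he1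
    have hU : (2 : ℝ) ^ (Nat.log 2 (T / e)) ≤ (T : ℝ) / e := by
      have h4 : 2 ^ Nat.log 2 (T / e) ≤ T / e := Nat.pow_log_le_self 2 (by omega)
      have h5 : ((2 ^ Nat.log 2 (T / e) : ℕ) : ℝ) ≤ ((T / e : ℕ) : ℝ) := Nat.cast_le.mpr h4
      rw [Nat.cast_pow, Nat.cast_ofNat] at h5
      exact h5.trans Nat.cast_div_le
    rw [← Finset.mul_sum, Finset.sum_add_distrib, Finset.sum_add_distrib, Finset.sum_add_distrib,
      ← Finset.mul_sum, ← Finset.mul_sum, ← Finset.mul_sum]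
    have g1 := WSM_geo (5 / 4) _ (by norm_num) _ hU
    have g2 := WSM_geo (1 / 4) _ (by norm_num) _ hU
    have g3 := WSM_geo (5 / 4 - τ) _ (by linarith) _ hU
    have g4 := WSM_geo (1 / 4 - τ) _ (by linarith) _ hU
    have t1 := WSM_te T e hT he1 (5 / 4) (6 / 5) (by norm_num)
    have t2 := WSM_te T e hT he1 (1 / 4) (1 / 5) (by norm_num)
    have t3 := WSM_te T e hT he1 (5 / 4 - τ) (6 / 5) (by linarith)
    have t4 := WSM_te T e hT he1 (1 / 4 - τ) (1 / 5) (by linarith)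
    have s3 : (T : ℝ) ^ (5 / 4 - τ) = (T : ℝ) ^ (5 / 4 : ℝ) * (T : ℝ) ^ (-τ) := by
      rw [sub_eq_add_neg, Real.rpow_add hT0]
    have s4 : (T : ℝ) ^ (1 / 4 - τ) = (T : ℝ) ^ (1 / 4 : ℝ) * (T : ℝ) ^ (-τ) := by
      rw [sub_eq_add_neg, Real.rpow_add hT0]
    rw [s3] at t3
    rw [s4] at t4
    have hq : 0 ≤ (2 * N * K / Y : ℝ) := by positivity
    have r1 := g1.trans (mul_le_mul_of_nonneg_left t1 (by norm_num : (0 : ℝ) ≤ 8))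
    have r2 := mul_le_mul_of_nonneg_left
      (g2.trans (mul_le_mul_of_nonneg_left t2 (by norm_num : (0 : ℝ) ≤ 8))) hq
    have r3 := mul_le_mul_of_nonneg_left
      (g3.trans (mul_le_mul_of_nonneg_left t3 (by norm_num : (0 : ℝ) ≤ 8))) hbB
    have r4 := mul_le_mul_of_nonneg_left
      (g4.trans (mul_le_mul_of_nonneg_left t4 (by norm_num : (0 : ℝ) ≤ 8)))
      (mul_nonneg hbB hq)
    have hw : (0 : ℝ) ≤ 2 ^ Y.primeFactors.card * C₀ := by positivity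
    refine (mul_le_mul_of_nonneg_left (add_le_add (add_le_add (add_le_add r1 r2) r3) r4) hw).trans
      (le_of_eq ?_)
    ring
  refine (Finset.sum_le_sum h2).trans ?_
  rw [← Finset.mul_sum, Finset.sum_add_distrib, ← Finset.mul_sum, ← Finset.mul_sum]
  obtain ⟨w1, w2⟩ := hCE y T hy
  have hD0 : 0 ≤ 8 * C₀ * (1 + b ^ B * (T : ℝ) ^ (-τ)) := by
    have : 0 ≤ (T : ℝ) ^ (-τ) := Real.rpow_nonneg hT0.le _
    positivity
  have hP1 : 0 ≤ (T : ℝ) ^ (5 / 4 : ℝ) := Real.rpow_nonneg hT0.le _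
  have hP2 : 0 ≤ (T : ℝ) ^ (1 / 4 : ℝ) := Real.rpow_nonneg hT0.le _
  have hP3 : 0 ≤ (T : ℝ) ^ (-τ) := Real.rpow_nonneg hT0.le _
  refine (mul_le_mul_of_nonneg_left (add_le_add (mul_le_mul_of_nonneg_left w2 hP1)
    (mul_le_mul_of_nonneg_left w1 (by positivity : 0 ≤ 2 * N * K * (T : ℝ) ^ (1 / 4 : ℝ))))
    hD0).trans ?_
  have hCp : 0 ≤ CE ^ (y.primeFactors.card + 1) := by positivity
  have hbig : 16 * C₀ * CE ^ (y.primeFactors.card + 1) ≤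
      (16 * C₀ * CE) ^ (y.primeFactors.card + 1) := by
    rw [mul_pow (16 * C₀) CE]
    refine mul_le_mul_of_nonneg_right ?_ hCp
    exact le_self_pow₀ (by linarith) (by omega)
  have hR : 0 ≤ ((T : ℝ) ^ (5 / 4 : ℝ) + N * K * (T : ℝ) ^ (1 / 4 : ℝ) / y) *
      (1 + b ^ B * (T : ℝ) ^ (-τ)) := by positivity
  calc 8 * C₀ * (1 + b ^ B * (T : ℝ) ^ (-τ)) *
        ((T : ℝ) ^ (5 / 4 : ℝ) * CE ^ (y.primeFactors.card + 1) +
          2 * N * K * (T : ℝ) ^ (1 / 4 : ℝ) * (CE ^ (y.primeFactors.card + 1) / y))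
      ≤ 8 * C₀ * (1 + b ^ B * (T : ℝ) ^ (-τ)) *
        (2 * (T : ℝ) ^ (5 / 4 : ℝ) * CE ^ (y.primeFactors.card + 1) +
          2 * N * K * (T : ℝ) ^ (1 / 4 : ℝ) * (CE ^ (y.primeFactors.card + 1) / y)) := by
        refine mul_le_mul_of_nonneg_left ?_ hD0
        have : 0 ≤ (T : ℝ) ^ (5 / 4 : ℝ) * CE ^ (y.primeFactors.card + 1) := mul_nonneg hP1 hCp
        nlinarith
    _ = (16 * C₀ * CE ^ (y.primeFactors.card + 1)) *
        (((T : ℝ) ^ (5 / 4 : ℝ) + N * K * (T : ℝ) ^ (1 / 4 : ℝ) / y) *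
          (1 + b ^ B * (T : ℝ) ^ (-τ))) := by
        ring
    _ ≤ (16 * C₀ * CE) ^ (y.primeFactors.card + 1) *
        (((T : ℝ) ^ (5 / 4 : ℝ) + N * K * (T : ℝ) ^ (1 / 4 : ℝ) / y) *
          (1 + b ^ B * (T : ℝ) ^ (-τ))) := mul_le_mul_of_nonneg_right hbig hR
    _ = _ := by ring

end Pool.Agent.T6
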