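import Pool.Agent.helper8.T6.SpecC1

set_option autoImplicit false

/-!
# T6, block C: TLB (number of the classes modulo `p ^ a`)
-/

namespace Pool.Agent.T6

open Finset Pool.Agent.T5

theorem TLB (hTLQ : TLQ_stmt) (hTGS : TGS_stmt) : TLB_stmt := by
  intro p a n k hp hn
  have hn4 : ¬ (p : ℤ) ∣ n ^ 4 := fun h =>
    hn (Prime.dvd_of_dvd_pow (Nat.prime_iff_prime_int.mp hp) h)
  have key : ∀ m R : ℕ, ((range (p ^ a)).filter
      (fun g : ℕ => (p : ℤ) ^ a ∣ Pk n k m g R)).card ≤ 2 * p ^ (a / 2) * Nat.gcd R (p ^ a) := by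
    intro m R
    have h := hTLQ p a R (n ^ 4)
      (-2 * n ^ 2 * R * m * k * ((m : ℤ) ^ 2 + k * R) - 4 * ((m : ℤ) ^ 2 + k * R) ^ 2 * n ^ 2 * m)
      ((m : ℤ) ^ 2 * k ^ 2 * ((m : ℤ) ^ 2 + k * R) ^ 2 - 4 * k ^ 2 * ((m : ℤ) ^ 2 + k * R) ^ 3)
      hp hn4
    have e : ∀ g : ℕ, Pk n k m g R = n ^ 4 * (R : ℤ) ^ 2 * (g : ℤ) ^ 2 +
        (-2 * n ^ 2 * R * m * k * ((m : ℤ) ^ 2 + k * R) -
          4 * ((m : ℤ) ^ 2 + k * R) ^ 2 * n ^ 2 * m) * g +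
        ((m : ℤ) ^ 2 * k ^ 2 * ((m : ℤ) ^ 2 + k * R) ^ 2 -
          4 * k ^ 2 * ((m : ℤ) ^ 2 + k * R) ^ 3) := by
      intro g
      unfold Pk
      ring
    simp only [e]
    exact h
  have h2 : ∀ m ∈ range (p ^ a), (∑ y ∈ range (p ^ a) ×ˢ range (p ^ a),
      (if (p : ℤ) ^ a ∣ Pk n k m y.1 y.2 then 1 else 0)) ≤ 2 * p ^ (a / 2) * ((a + 1) * p ^ a) := by
    intro m _
    rw [Finset.sum_product_right]
    have h3 : ∀ R ∈ range (p ^ a), (∑ g ∈ range (p ^ a),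
        (if (p : ℤ) ^ a ∣ Pk n k m g R then 1 else 0)) ≤ 2 * p ^ (a / 2) * Nat.gcd R (p ^ a) := by
      intro R _
      rw [← Finset.card_filter]
      exact key m R
    refine (Finset.sum_le_sum h3).trans ?_
    rw [← Finset.mul_sum]
    exact Nat.mul_le_mul_left _ (hTGS p a hp)
  unfold cub
  rw [Finset.card_filter, Finset.sum_product]
  refine (Finset.sum_le_sum h2).trans ?_
  rw [Finset.sum_const, Finset.card_range, smul_eq_mul]
  refine le_of_eq ?_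
  rw [show 2 * a + a / 2 = a + (a / 2 + a) by omega, pow_add, pow_add]
  ring

end Pool.Agent.T6
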